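import Pool.Agent.Helper48.WeissJ.Goals

/-! MP_6b0aee_an (Weiss), joint version: packet BIN (greedy bins). -/

open Finset

namespace Pool.Agent.Helper79.WeissJ

theorem bin : Pool.Agent.Helper48.WeissJ.BIN := by
  classical
  intro ι κ _ _ f wt h0 h1 M hM
  set e := Fintype.equivFin ι with he
  -- initial segments
  let A : ι → Finset ι := fun i => univ.filter (fun j => e j < e i ∧ f j = f i)
  let P : ι → ℝ := fun i => ∑ j ∈ A i, wt j
  let tot : κ → ℝ := fun c => ∑ j ∈ univ.filter (fun j => f j = c), wt j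
  have hP0 : ∀ i, 0 ≤ P i := fun i => sum_nonneg (fun j _ => h0 j)
  have htot0 : ∀ c, 0 ≤ tot c := fun c => sum_nonneg (fun j _ => h0 j)
  have hPt : ∀ i, P i ≤ tot (f i) := by
    intro i
    refine sum_le_sum_of_subset_of_nonneg ?_ (fun j _ _ => h0 j)
    intro j hj
    simp only [A, mem_filter, mem_univ, true_and] at hj ⊢
    exact hj.2
  let B : Type := Σ c : κ, Fin (⌊tot c / M⌋₊ + 1)
  let b0 : ι → B := fun i => ⟨f i, ⟨⌊P i / M⌋₊, by
    have : ⌊P i / M⌋₊ ≤ ⌊tot (f i) / M⌋₊ :=
      Nat.floor_le_floor (by gcongr; exact hPt i)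
    omega⟩⟩
  have hb0 : ∀ i j, b0 i = b0 j → f i = f j ∧ ⌊P i / M⌋₊ = ⌊P j / M⌋₊ := by
    intro i j h
    have h1 : (b0 i).1 = (b0 j).1 := by rw [h]
    have h2 : ((b0 i).2 : ℕ) = ((b0 j).2 : ℕ) := by rw [h]
    exact ⟨h1, h2⟩
  let E : B ≃ Fin (Fintype.card B) := Fintype.equivFin B
  refine ⟨Fintype.card B, fun i => E (b0 i), ?_, ?_, ?_⟩
  · intro i j h
    exact (hb0 i j (E.injective h)).1
  · intro k
    set S : Finset ι := univ.filter (fun i => E (b0 i) = k) with hS
    by_cases hne : S.Nonempty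
    · obtain ⟨i1, hi1, hmax⟩ := S.exists_max_image (fun i => e i) hne
      obtain ⟨i0, hi0, hmin⟩ := S.exists_min_image (fun i => e i) hne
      have hmem : ∀ {i}, i ∈ S → f i = f i1 ∧ ⌊P i / M⌋₊ = ⌊P i1 / M⌋₊ := by
        intro i hi
        simp only [hS, mem_filter, mem_univ, true_and] at hi hi1
        exact hb0 i i1 (E.injective (hi.trans hi1.symm))
      have hsub : S.erase i1 ⊆ A i1 \ A i0 := by
        intro j hj
        have hj1 := ne_of_mem_erase hj
        have hj2 := mem_of_mem_erase hj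
        have hlt : e j < e i1 := lt_of_le_of_ne (hmax j hj2) (fun h => hj1 (e.injective h))
        simp only [A, mem_sdiff, mem_filter, mem_univ, true_and]
        refine ⟨⟨hlt, (hmem hj2).1⟩, ?_⟩
        rintro ⟨h3, -⟩
        exact absurd (hmin j hj2) (not_le.mpr h3)
      have hA : A i0 ⊆ A i1 := by
        intro j hj
        simp only [A, mem_filter, mem_univ, true_and] at hj ⊢
        exact ⟨lt_of_lt_of_le hj.1 (hmin i1 hi1), hj.2.trans (hmem hi0).1⟩
      have hsum : ∑ i ∈ S.erase i1, wt i ≤ P i1 - P i0 := by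
        have h3 : ∑ j ∈ A i1 \ A i0, wt j = P i1 - P i0 := by
          have := sum_sdiff (f := wt) hA
          simp only [P]
          linarith
        rw [← h3]
        exact sum_le_sum_of_subset_of_nonneg hsub (fun j _ _ => h0 j)
      have hfl := (hmem hi0).2
      have hu : P i1 / M < ⌊P i1 / M⌋₊ + 1 := Nat.lt_floor_add_one _
      have hl : (⌊P i0 / M⌋₊ : ℝ) ≤ P i0 / M := Nat.floor_le (div_nonneg (hP0 i0) hM.le)
      have hdiff : P i1 / M - P i0 / M ≤ 1 := by
        have : (⌊P i0 / M⌋₊ : ℝ) = (⌊P i1 / M⌋₊ : ℝ) := by exact_mod_cast hfl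
        linarith
      have hdiff' : P i1 - P i0 ≤ M := by
        rw [← sub_div, div_le_iff₀ hM] at hdiff
        linarith
      rw [← add_sum_erase S wt hi1]
      have := h1 i1
      linarith
    · rw [not_nonempty_iff_eq_empty] at hne
      rw [hne, sum_empty]
      linarith
  · have hcard : (Fintype.card B : ℝ) = ∑ c : κ, ((⌊tot c / M⌋₊ : ℝ) + 1) := by
      simp [B, Fintype.card_sigma]
    rw [hcard, sum_add_distrib]
    have h3 : ∑ c : κ, (⌊tot c / M⌋₊ : ℝ) ≤ (∑ i, wt i) / M := by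
      have h4 : ∑ i, wt i = ∑ c : κ, tot c := by
        simp only [tot]
        exact (sum_fiberwise _ f wt).symm
      rw [h4, sum_div]
      exact sum_le_sum (fun c _ => Nat.floor_le (div_nonneg (htot0 c) hM.le))
    have h5 : ∑ c : κ, (1 : ℝ) = Fintype.card κ := by simp
    linarith

end Pool.Agent.Helper79.WeissJ
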